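import Pool.Agent.TH195.KR.Main

/-!
# The Knörr–Robinson identity follows from its asymptotic form

Definitions used (in `Pool/Agent/TH195/KR/Defs.lean`): `altSum p G`, the left side of the frozen
statement `S02817`, which is `|G| χ₂(S_p(G), G)`; `zp p G`, the number of irreducible complex
characters of `p`-defect zero, as in `S02817`.
-/

set_option autoImplicit false

open Pool.Agent.TH195.KR

namespace Pool.Agent.Results.MP_b6945b_al.AsymptoticIdentity

/-- The Knörr–Robinson identity for `G` and `p`, in the form of `S02817`. -/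
def KRC (p : ℕ) (G : Type) [Group G] : Prop :=
  altSum p G = (Nat.card G : ℤ) * ((Nat.card (ConjClasses G) : ℤ) - (zp p G : ℤ))

/-- `χ₂(S_p(G), G)` -/
noncomputable def chi2 (p : ℕ) (G : Type) [Group G] : ℝ := (altSum p G : ℝ) / Nat.card G

/-- `k(G) - z_p(G)` -/
noncomputable def kz (p : ℕ) (G : Type) [Group G] : ℝ :=
  (Nat.card (ConjClasses G) : ℝ) - (zp p G : ℝ)

/-- The class `P` of groups is closed under direct products with finite cyclic groups of order
prime to `p`. -/
def ClosedUnderCyclic (p : ℕ) (P : ∀ (G : Type) [Group G], Prop) : Prop :=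
  ∀ (G : Type) [Group G] [Finite G] (m : ℕ), 0 < m → m.Coprime p → P G →
    P (G × Multiplicative (ZMod m))

theorem err_eq (p : ℕ) (G : Type) [Group G] [Finite G] :
    (err p G : ℝ) = (Nat.card G : ℝ) * (chi2 p G - kz p G) := by
  have hG : (Nat.card G : ℝ) ≠ 0 := by exact_mod_cast Nat.card_pos.ne'
  unfold err chi2 kz
  push_cast
  field_simp

/-- For every prime `p` and every class `P` of finite groups which is closed under direct products
with cyclic groups of order prime to `p` (for instance all groups, or all groups with given Sylow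
`p`-subgroups): the Knörr–Robinson identity `χ₂(S_p(G), G) = k(G) - z_p(G)` holds for all groups
in `P` if and only if it holds up to an error `o(|G|)`, and the same is true for each of the two
inequalities. -/
theorem result (p : ℕ) (hp : p.Prime) (P : ∀ (G : Type) [Group G], Prop)
    (hP : ClosedUnderCyclic p P) :
    ((∀ (G : Type) [Group G] [Finite G], P G → KRC p G) ↔
      ∀ ε : ℝ, 0 < ε → ∃ N : ℕ, ∀ (G : Type) [Group G] [Finite G], P G → N ≤ Nat.card G →
        |chi2 p G - kz p G| ≤ ε * Nat.card G) ∧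
    ((∀ (G : Type) [Group G] [Finite G], P G → chi2 p G ≤ kz p G) ↔
      ∀ ε : ℝ, 0 < ε → ∃ N : ℕ, ∀ (G : Type) [Group G] [Finite G], P G → N ≤ Nat.card G →
        chi2 p G ≤ kz p G + ε * Nat.card G) ∧
    ((∀ (G : Type) [Group G] [Finite G], P G → kz p G ≤ chi2 p G) ↔
      ∀ ε : ℝ, 0 < ε → ∃ N : ℕ, ∀ (G : Type) [Group G] [Finite G], P G → N ≤ Nat.card G →
        kz p G - ε * Nat.card G ≤ chi2 p G) := by
  have hpos : ∀ (G : Type) [Group G] [Finite G], (0 : ℝ) < Nat.card G := fun G _ _ => by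
    exact_mod_cast Nat.card_pos
  have hPk : ∀ (G : Type) [Group G] [Finite G] (k : ℕ), P G → P (G × Cy p k) := fun G _ _ k h =>
    hP G (k * p + 1) (Nat.succ_pos _) (by rw [Nat.coprime_comm]; simp) h
  have hup : (∀ ε : ℝ, 0 < ε → ∃ N : ℕ, ∀ (G : Type) [Group G] [Finite G], P G →
      N ≤ Nat.card G → chi2 p G ≤ kz p G + ε * Nat.card G) →
      ∀ (G : Type) [Group G] [Finite G], P G → err p G ≤ 0 := by
    intro h G _ _ hG
    refine le_zero_of hp fun ε hε => ?_
    obtain ⟨N, hN⟩ := h ε hε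
    refine ⟨N, fun k hk => ?_⟩
    have h1 := hN (G × Cy p k) (hPk G k hG) (hk.trans (le_card_prod hp))
    rw [err_eq]
    have h2 := hpos (G × Cy p k)
    nlinarith
  have hlo : (∀ ε : ℝ, 0 < ε → ∃ N : ℕ, ∀ (G : Type) [Group G] [Finite G], P G →
      N ≤ Nat.card G → kz p G - ε * Nat.card G ≤ chi2 p G) →
      ∀ (G : Type) [Group G] [Finite G], P G → 0 ≤ err p G := by
    intro h G _ _ hG
    refine zero_le_of hp fun ε hε => ?_
    obtain ⟨N, hN⟩ := h ε hε
    refine ⟨N, fun k hk => ?_⟩
    have h1 := hN (G × Cy p k) (hPk G k hG) (hk.trans (le_card_prod hp))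
    rw [err_eq]
    have h2 := hpos (G × Cy p k)
    nlinarith
  have hK : ∀ (G : Type) [Group G] [Finite G], KRC p G ↔ err p G = 0 := fun G _ _ => by
    unfold KRC err
    exact sub_eq_zero.symm
  have hc : ∀ (G : Type) [Group G] [Finite G], err p G ≤ 0 → chi2 p G ≤ kz p G := by
    intro G _ _ h
    have h1 : (err p G : ℝ) ≤ 0 := by exact_mod_cast h
    rw [err_eq] at h1
    have h2 := hpos G
    by_contra h3
    push Not at h3
    nlinarith [mul_pos h2 (sub_pos.2 h3)]
  have hc' : ∀ (G : Type) [Group G] [Finite G], 0 ≤ err p G → kz p G ≤ chi2 p G := by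
    intro G _ _ h
    have h1 : (0 : ℝ) ≤ (err p G : ℝ) := by exact_mod_cast h
    rw [err_eq] at h1
    have h2 := hpos G
    by_contra h3
    push Not at h3
    nlinarith [mul_pos h2 (sub_pos.2 h3)]
  refine ⟨⟨fun h ε hε => ⟨0, fun G _ _ hG _ => ?_⟩, fun h G _ _ hG => ?_⟩,
    ⟨fun h ε hε => ⟨0, fun G _ _ hG _ => ?_⟩, fun h G _ _ hG => hc G (hup h G hG)⟩,
    ⟨fun h ε hε => ⟨0, fun G _ _ hG _ => ?_⟩, fun h G _ _ hG => hc' G (hlo h G hG)⟩⟩
  · have h0 := (hK G).1 (h G hG)
    have h1 : (Nat.card G : ℝ) * (chi2 p G - kz p G) = 0 := by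
      rw [← err_eq, h0, Int.cast_zero]
    rcases mul_eq_zero.1 h1 with h2 | h2
    · exact absurd h2 (hpos G).ne'
    · rw [h2, abs_zero]
      have := hpos G
      positivity
  · rw [hK]
    refine le_antisymm (hup (fun ε hε => ?_) G hG) (hlo (fun ε hε => ?_) G hG)
    · obtain ⟨N, hN⟩ := h ε hε
      refine ⟨N, fun G' _ _ hG' hN' => ?_⟩
      have := (abs_le.1 (hN G' hG' hN')).2
      linarith
    · obtain ⟨N, hN⟩ := h ε hε
      refine ⟨N, fun G' _ _ hG' hN' => ?_⟩
      have := (abs_le.1 (hN G' hG' hN')).1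
      linarith
  · have := h G hG
    have h2 := hpos G
    nlinarith [mul_pos hε h2]
  · have := h G hG
    have h2 := hpos G
    nlinarith [mul_pos hε h2]

end Pool.Agent.Results.MP_b6945b_al.AsymptoticIdentity
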