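import Pool.Agent.TH986.SG.Main

/-!
# The Knörr–Robinson identity is continuity at genus one along `φ(p ^ N) ∣ 2 g - 2`

Definitions used: `altSum p G` (in `Pool/Agent/TH195/KR/Defs.lean`), the left side of the frozen
statement `S02817`; `zp p G` (there), the number of irreducible complex characters of `p`-defect
zero, as in `S02817`; `homs G g σ`, `altHoms p G g` and `F p G g` (in
`Pool/Agent/TH986/SG/Main.lean`): the number of homomorphisms from the fundamental group of the
closed orientable surface of genus `g` to the stabilizer of the chain `σ`, the alternating sum of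
these numbers over the nonempty chains of nontrivial `p`-subgroups, and the alternating sum over all
chains, the empty chain included.
-/

set_option autoImplicit false

open Pool.Agent.TH195.KR Pool.Agent.TH986.SG

namespace Pool.Agent.Results.MP_b6945b_al.ContinuityAtGenusOne

/-- The Knörr–Robinson identity for `G` and `p`, in the form of `S02817`. -/
def KRC (p : ℕ) (G : Type) [Group G] : Prop :=
  altSum p G = (Nat.card G : ℤ) * ((Nat.card (ConjClasses G) : ℤ) - (zp p G : ℤ))

/-- Let `p` be a prime and `G` a finite group, and let `F p G g` be the alternating sum, over the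
chains of nontrivial `p`-subgroups, the empty chain included, of the numbers of homomorphisms from
the fundamental group of the closed orientable surface of genus `g` to the stabilizer of the chain.

* At genus one this is `|G| k(G)` minus the left side of the Knörr–Robinson identity.
* For `g ≥ 1` the nonempty chains together contribute a multiple of `p ^ (2 * g - 1)`.
* If `g ≥ 2` and `φ(p ^ N)` divides `2 * g - 2`, then `F p G g` is congruent to `|G| z_p(G)` modulo
  `p ^ N`.
* The Knörr–Robinson identity holds for `G` and `p` if and only if `F p G g` is congruent to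
  `F p G 1` modulo `p ^ N` for all these `g` and `N`, that is, `F p G g` tends to `F p G 1`
  `p`-adically as `N` grows and `φ(p ^ N)` divides `2 * g - 2`.
* One of these congruences is enough if `p ^ N > |F p G 1| + |G| k(G)`. -/
theorem result {p : ℕ} (hp : p.Prime) {G : Type} [Group G] [Finite G] :
    (F p G 1 = (Nat.card G : ℤ) * Nat.card (ConjClasses G) - altSum p G) ∧
    (∀ g : ℕ, 1 ≤ g → (p : ℤ) ^ (2 * g - 1) ∣ altHoms p G g) ∧
    (∀ N g : ℕ, 2 ≤ g → Nat.totient (p ^ N) ∣ 2 * g - 2 →
      (p : ℤ) ^ N ∣ F p G g - (Nat.card G : ℤ) * zp p G) ∧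
    (KRC p G ↔ ∀ N g : ℕ, 2 ≤ g → Nat.totient (p ^ N) ∣ 2 * g - 2 →
      (p : ℤ) ^ N ∣ F p G g - F p G 1) ∧
    (∀ N g : ℕ, 2 ≤ g → Nat.totient (p ^ N) ∣ 2 * g - 2 →
      |F p G 1| + (Nat.card G : ℤ) * Nat.card (ConjClasses G) < (p : ℤ) ^ N →
      (KRC p G ↔ (p : ℤ) ^ N ∣ F p G g - F p G 1)) := by
  refine ⟨?_, fun g hg => dvd_altHoms hp hg, fun N g hg hφ => near hp hg hφ, continuity hp,
    fun N g hg hφ hN => one_congruence hp hg hφ hN⟩
  unfold F
  rw [homs_one_empty, altHoms_one]
  push_cast
  ring

end Pool.Agent.Results.MP_b6945b_al.ContinuityAtGenusOne
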