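import Pool.Agent.TH116.PT.Linear

/-!
# The Knörr–Robinson conjecture: a defect smaller than the number of classes is enough
-/

universe u

namespace Pool.Agent.Results.MP_b6945b_al.DefectSmallerThanClasses

open Pool.Agent.TH116.PT

/-- Finite groups with the numbers in the conjecture for a fixed prime `p`, and the products of a
group with a cyclic group of order `m + 1`, for the `m` for which `p` does not divide `m + 1`. -/
structure Groups (p : ℕ) where
  /-- the finite groups -/
  Grp : Type u
  /-- the number of conjugacy classes -/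
  k : Grp → ℕ
  /-- the negative of the reduced second equivariant Euler characteristic -/
  χ : Grp → ℤ
  /-- the number of characters of `p`-defect zero -/
  z : Grp → ℕ
  /-- the product with a cyclic group of order `m + 1` -/
  tw : Grp → ℕ → Grp
  k_tw : ∀ G m, ¬ p ∣ m + 1 → k (tw G m) = k G * (m + 1)
  χ_tw : ∀ G m, ¬ p ∣ m + 1 → χ (tw G m) = χ G * (m + 1)
  z_tw : ∀ G m, ¬ p ∣ m + 1 → z (tw G m) = z G * (m + 1)

/-- The Knörr–Robinson equality for all groups, versus the equality up to an error `ε k(G) + C` for
each `ε > 0`. -/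
theorem result {p : ℕ} (hp : 2 ≤ p) (T : Groups.{u} p) :
    (∀ G, T.χ G = T.z G) ↔
      ∀ ε : ℝ, 0 < ε → ∃ C : ℝ, ∀ G, |(T.χ G : ℝ) - T.z G| ≤ ε * T.k G + C := by
  constructor
  · intro h ε hε
    refine ⟨0, fun G => ?_⟩
    rw [h G]
    have : (0 : ℝ) ≤ T.k G := Nat.cast_nonneg _
    simp only [Int.cast_natCast, sub_self, abs_zero, add_zero]
    positivity
  · intro h G
    have key : T.χ G - T.z G = 0 := by
      refine eq_zero_of_linear (s := T.k G) fun ε hε => ?_
      obtain ⟨C, hC⟩ := h ε hε
      refine ⟨C, fun N => ⟨p * N + 1, by nlinarith, ?_⟩⟩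
      have hnd : ¬ p ∣ p * N + 1 := by
        intro hd
        have := (Nat.dvd_add_right (dvd_mul_right p N)).1 hd
        have := Nat.le_of_dvd one_pos this
        omega
      have h1 := hC (T.tw G (p * N))
      rw [T.k_tw G _ hnd, T.χ_tw G _ hnd, T.z_tw G _ hnd] at h1
      push_cast at h1 ⊢
      have e : (T.χ G : ℝ) * (p * N + 1) - T.z G * (p * N + 1) =
          ((T.χ G : ℝ) - T.z G) * (p * N + 1) := by ring
      rw [e, abs_mul, abs_of_nonneg (by positivity : (0 : ℝ) ≤ (p : ℝ) * N + 1)] at h1
      exact h1
    omega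

end Pool.Agent.Results.MP_b6945b_al.DefectSmallerThanClasses
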